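import Mathlib

/-!
# A finite tree has an automorphism stable set of one or two vertices

(Block B1 of `MP_c0c476_ag.CodimensionTwo`.)  We remove the leaves of the tree again and again.
-/

namespace Pool.LVS

open SimpleGraph

lemma two_le_degree_of_mem_path {V : Type} [Fintype V] (G : SimpleGraph V) [DecidableRel G.Adj]
    {u v : V} (p : G.Walk u v) : p.IsPath → 2 ≤ G.degree u → 2 ≤ G.degree v →
      ∀ x ∈ p.support, 2 ≤ G.degree x := by
  classical
  induction p with
  | nil =>
    intro _ hu _ x hx
    simp only [Walk.support_nil, List.mem_singleton] at hx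
    subst hx
    exact hu
  | @cons a b c h q ih =>
    intro hp hu hv x hx
    rw [Walk.cons_isPath_iff] at hp
    have hb : 2 ≤ G.degree b := by
      cases q with
      | nil => exact hv
      | @cons _ d _ h' q' =>
        have hne : a ≠ d := by
          rintro rfl
          exact hp.2 (by simp)
        have hsub : ({a, d} : Finset V) ⊆ G.neighborFinset b := by
          intro y hy
          rw [Finset.mem_insert, Finset.mem_singleton] at hy
          rw [mem_neighborFinset]
          rcases hy with rfl | rfl
          · exact h.symm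
          · exact h'
        calc 2 = ({a, d} : Finset V).card := (Finset.card_pair hne).symm
          _ ≤ (G.neighborFinset b).card := Finset.card_le_card hsub
          _ = G.degree b := G.card_neighborFinset_eq_degree b
    rw [Walk.support_cons, List.mem_cons] at hx
    rcases hx with rfl | hx
    · exact hu
    · exact ih hp.1 hb hv x hx

theorem small_orbit_aux (n : ℕ) : ∀ {V : Type} [Fintype V] [Nonempty V] (G : SimpleGraph V),
    G.IsTree → Fintype.card V ≤ n →
    ∃ O : Finset V, O.Nonempty ∧ O.card ≤ 2 ∧ ∀ f : G ≃g G, ∀ v ∈ O, f v ∈ O := by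
  classical
  induction n with
  | zero =>
    intro V _ _ G _ h
    exact absurd (Fintype.card_pos (α := V)) (by omega)
  | succ n ih =>
    intro V _ _ G hG h
    by_cases h2 : Fintype.card V ≤ 2
    · exact ⟨Finset.univ, Finset.univ_nonempty, by simpa using h2, fun f v _ => Finset.mem_univ _⟩
    push Not at h2
    have hedge := hG.card_edgeFinset
    have hsum := G.sum_degrees_eq_twice_card_edges
    have hex : ∃ v : V, 2 ≤ G.degree v := by
      by_contra hcon
      push Not at hcon
      have h1 : ∑ v : V, G.degree v ≤ ∑ _v : V, 1 :=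
        Finset.sum_le_sum (fun v _ => by have := hcon v; omega)
      simp only [Finset.sum_const, Finset.card_univ, smul_eq_mul, mul_one] at h1
      omega
    have hnt : Nontrivial V := Fintype.one_lt_card_iff_nontrivial.mp (by omega)
    obtain ⟨l, hl⟩ := hG.exists_vert_degree_one_of_nontrivial
    let S : Set V := {v | 2 ≤ G.degree v}
    have hSne : Nonempty S := by
      obtain ⟨v, hv⟩ := hex
      exact ⟨⟨v, hv⟩⟩
    have hpre : (G.induce S).Preconnected := by
      rintro ⟨u, hu⟩ ⟨v, hv⟩
      obtain ⟨p, hp⟩ := hG.1.exists_isPath u v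
      have hsup : ∀ x ∈ p.support, x ∈ S := two_le_degree_of_mem_path G p hp hu hv
      exact ⟨p.induce S hsup⟩
    have hT : (G.induce S).IsTree := ⟨⟨hpre⟩, hG.2.induce S⟩
    have hcard : Fintype.card S < Fintype.card V := by
      have := Fintype.card_subtype_lt (p := fun v : V => v ∈ S) (x := l) (by
        show ¬ (2 ≤ G.degree l)
        omega)
      exact this
    obtain ⟨O, hO1, hO2, hO3⟩ := ih (G.induce S) hT (by omega)
    refine ⟨O.map ⟨Subtype.val, Subtype.val_injective⟩, by simpa using hO1, by simpa using hO2, ?_⟩
    intro f v hv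
    rw [Finset.mem_map] at hv
    obtain ⟨w, hw, rfl⟩ := hv
    have hdeg : ∀ x : V, G.degree (f x) = G.degree x := fun x => f.degree_eq x
    have hmem : ∀ a : V, a ∈ S ↔ f.toEquiv a ∈ S := by
      intro a
      show 2 ≤ G.degree a ↔ 2 ≤ G.degree (f a)
      rw [hdeg]
    let g : G.induce S ≃g G.induce S :=
      { toEquiv := f.toEquiv.subtypeEquiv hmem
        map_rel_iff' := by
          rintro ⟨a, ha⟩ ⟨b, hb⟩
          show G.Adj (f a) (f b) ↔ G.Adj a b
          exact f.map_adj_iff }
    have hg := hO3 g w hw
    rw [Finset.mem_map]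
    exact ⟨g w, hg, rfl⟩

/-- In a finite tree there is a set of one or two vertices which is stable under all
automorphisms. -/
theorem small_orbit {V : Type} [Fintype V] [Nonempty V] (G : SimpleGraph V) (hG : G.IsTree) :
    ∃ O : Finset V, O.Nonempty ∧ O.card ≤ 2 ∧ ∀ f : G ≃g G, ∀ v ∈ O, f v ∈ O :=
  small_orbit_aux _ G hG le_rfl

end Pool.LVS
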